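import Mathlib

/-!
# Every `S₁(Γ₁, Γ)`-space of reals is perfectly meager

Let `P` be a perfect set and `(O_k)` a countable base of `P`. Inside each `O_k` choose infinitely many
pairwise disjoint closed sets `F_{k,m}` with nonempty interior in `P`. Let every `k` be attached to
infinitely many rows `n`, and let `V_{n,m}` be the complement of `F_{k,m}` in `X`. This is a
`Γ₁`-sequence. For every `d` the set of the points of `P` which lie in infinitely many of the sets
`F_{k(n),d(n)}` is comeager in `P`. So if `⟨V_{n,d(n)}⟩` is a `γ`-sequence, `X ∩ P` is meager in `P`.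
-/

set_option autoImplicit false

namespace Pool.Agent.Results.MP_9df12e_lc.PerfectlyMeager

open Set Filter Topology

/-- `V` is a `Γ₁`-sequence for `X`: in each row every point of `X` is missing from at most one set. -/
def GammaOneSequence (X : Set ℝ) (V : ℕ → ℕ → Set X) : Prop :=
  (∀ n m, IsOpen (V n m)) ∧ ∀ (x : X) (n : ℕ), {m | x ∉ V n m}.encard ≤ 1

/-- `U` is a `γ`-sequence for `X`: every point is in all but finitely many of the open sets `U n`. -/
def GammaSequence (X : Set ℝ) (U : ℕ → Set X) : Prop :=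
  (∀ n, IsOpen (U n)) ∧ ∀ x : X, ∀ᶠ n in atTop, x ∈ U n

/-- `X` is an `S₁(Γ₁, Γ)`-space. -/
def S1GammaOneGamma (X : Set ℝ) : Prop :=
  ∀ V : ℕ → ℕ → Set X, GammaOneSequence X V →
    ∃ d : ℕ → ℕ, GammaSequence X (fun n => V n (d n))

/-- `X ∩ P` is meager in `P` for every perfect set `P`. -/
def IsPerfectlyMeager (X : Set ℝ) : Prop :=
  ∀ P : Set ℝ, P.Nonempty → Perfect P → IsMeagre (Subtype.val ⁻¹' X : Set P)

theorem infinite_open {P : Set ℝ} (hP : Perfect P) {O : Set P} (hO : IsOpen O)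
    (hne : O.Nonempty) : O.Infinite := by
  obtain ⟨x, hx⟩ := hne
  have hacc : AccPt x.1 (𝓟 P) := hP.acc x.1 x.2
  have : NeBot (𝓝[≠] x) := by
    rw [nhdsWithin_neBot]
    intro t ht
    rw [nhds_subtype, mem_comap] at ht
    obtain ⟨s, hs, hst⟩ := ht
    obtain ⟨y, hy1, hy2⟩ := (accPt_iff_nhds.1 hacc) s hs
    exact ⟨⟨y, hy1.2⟩, hst hy1.1, fun h => hy2 (congrArg Subtype.val h)⟩
  exact infinite_of_mem_nhds x (hO.mem_nhds hx)

theorem exists_closed {P : Set ℝ} (hP : Perfect P) {O : Set P} (hO : IsOpen O)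
    (hne : O.Nonempty) : ∃ F : ℕ → Set P, (∀ m, IsClosed (F m)) ∧
      (∀ m, (interior (F m) ∩ O).Nonempty) ∧ ∀ m m', m ≠ m' → Disjoint (F m) (F m') := by
  have hinf : Infinite O := (infinite_open hP hO hne).to_subtype
  obtain ⟨U, hUi, hUo, hUd⟩ := exists_seq_infinite_isOpen_pairwise_disjoint O
  have hU' : ∀ m, IsOpen ((↑) '' (U m) : Set P) := fun m =>
    hO.isOpenMap_subtype_val _ (hUo m)
  have hx : ∀ m, ∃ x : P, x ∈ ((↑) '' (U m) : Set P) := by
    intro m
    obtain ⟨y, hy⟩ := (hUi m).nonempty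
    exact ⟨y.1, y, hy, rfl⟩
  choose x hx using hx
  have hF : ∀ m, ∃ F : Set P, F ∈ 𝓝 (x m) ∧ IsClosed F ∧ F ⊆ ((↑) '' (U m) : Set P) :=
    fun m => exists_mem_nhds_isClosed_subset ((hU' m).mem_nhds (hx m))
  choose F hF1 hF2 hF3 using hF
  refine ⟨F, hF2, fun m => ⟨x m, mem_interior_iff_mem_nhds.2 (hF1 m), ?_⟩, fun m m' hmm => ?_⟩
  · obtain ⟨y, _, hy⟩ := hx m
    rw [← hy]
    exact y.2
  · rw [Set.disjoint_left]
    intro z hz hz'
    obtain ⟨y, hy, rfl⟩ := hF3 m hz
    obtain ⟨y', hy', hyy⟩ := hF3 m' hz'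
    have : y' = y := Subtype.ext hyy
    rw [this] at hy'
    exact (Set.disjoint_left.1 (hUd hmm)) hy hy'

theorem result : ∀ X : Set ℝ, S1GammaOneGamma X → IsPerfectlyMeager X := by
  intro X hX P hPne hP
  have hPne' : Nonempty P := hPne.to_subtype
  -- a countable base, without the empty set
  obtain ⟨b, hb⟩ : ∃ b : ℕ → Set P, (∀ k, IsOpen (b k) ∧ (b k).Nonempty) ∧
      ∀ O : Set P, IsOpen O → O.Nonempty → ∃ k, b k ⊆ O := by
    have hc := TopologicalSpace.countable_countableBasis P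
    have hne : (TopologicalSpace.countableBasis P).Nonempty := by
      obtain ⟨x⟩ := hPne'
      obtain ⟨v, hv, _⟩ := (TopologicalSpace.isBasis_countableBasis P).exists_subset_of_mem_open
        (mem_univ x) isOpen_univ
      exact ⟨v, hv⟩
    obtain ⟨b, hb⟩ := hc.exists_eq_range hne
    refine ⟨b, fun k => ?_, fun O hO hOn => ?_⟩
    · have hk : b k ∈ TopologicalSpace.countableBasis P := by rw [hb]; exact ⟨k, rfl⟩
      exact ⟨TopologicalSpace.isOpen_of_mem_countableBasis hk,
        TopologicalSpace.nonempty_of_mem_countableBasis hk⟩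
    · obtain ⟨x, hx⟩ := hOn
      obtain ⟨v, hv, _, hvO⟩ := (TopologicalSpace.isBasis_countableBasis P).exists_subset_of_mem_open
        hx hO
      rw [hb] at hv
      obtain ⟨k, rfl⟩ := hv
      exact ⟨k, hvO⟩
  choose F hFc hFi hFd using fun k => exists_closed hP (hb.1 k).1 (hb.1 k).2
  let V : ℕ → ℕ → Set X := fun n m =>
    {x | x.1 ∉ (Subtype.val '' (F (Nat.unpair n).1 m) : Set ℝ)}
  have hV : GammaOneSequence X V := by
    constructor
    · intro n m
      have h1 : IsClosed (Subtype.val '' (F (Nat.unpair n).1 m) : Set ℝ) :=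
        hP.closed.isClosedEmbedding_subtypeVal.isClosedMap _ (hFc _ _)
      exact (h1.preimage continuous_subtype_val).isOpen_compl
    · intro x n
      rw [Set.encard_le_one_iff]
      intro m m' hm hm'
      have hm1 : x.1 ∈ (Subtype.val '' (F (Nat.unpair n).1 m) : Set ℝ) := by
        by_contra hcon
        exact hm hcon
      have hm2 : x.1 ∈ (Subtype.val '' (F (Nat.unpair n).1 m') : Set ℝ) := by
        by_contra hcon
        exact hm' hcon
      obtain ⟨y, hy, hyx⟩ := hm1
      obtain ⟨y', hy', hyx'⟩ := hm2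
      by_contra hne
      have : y' = y := Subtype.ext (hyx'.trans hyx.symm)
      rw [this] at hy'
      exact (Set.disjoint_left.1 (hFd _ m m' hne)) hy hy'
  obtain ⟨d, _, hd⟩ := hX V hV
  have hG : ∀ᶠ x in residual P, ∀ j : ℕ, ∃ n ≥ j, x ∈ F (Nat.unpair n).1 (d n) := by
    rw [eventually_countable_forall]
    intro j
    have hopen : IsOpen (⋃ n, ⋃ (_ : n ≥ j), interior (F (Nat.unpair n).1 (d n))) :=
      isOpen_iUnion fun n => isOpen_iUnion fun _ => isOpen_interior
    have hdense : Dense (⋃ n, ⋃ (_ : n ≥ j), interior (F (Nat.unpair n).1 (d n))) := by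
      rw [dense_iff_inter_open]
      intro O hO hOn
      obtain ⟨k, hk⟩ := hb.2 O hO hOn
      obtain ⟨z, hz1, hz2⟩ := hFi k (d (Nat.pair k j))
      refine ⟨z, hk hz2, ?_⟩
      simp only [mem_iUnion]
      refine ⟨Nat.pair k j, Nat.right_le_pair k j, ?_⟩
      rw [Nat.unpair_pair]
      exact hz1
    filter_upwards [residual_of_dense_open hopen hdense] with x hx
    simp only [mem_iUnion] at hx
    obtain ⟨n, hn, hxn⟩ := hx
    exact ⟨n, hn, interior_subset hxn⟩
  change (Subtype.val ⁻¹' X : Set P)ᶜ ∈ residual P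
  filter_upwards [hG] with x hx hxX
  obtain ⟨j, hj⟩ := eventually_atTop.1 (hd ⟨x.1, hxX⟩)
  obtain ⟨n, hn, hxn⟩ := hx j
  exact hj n hn ⟨x, hxn, rfl⟩

end Pool.Agent.Results.MP_9df12e_lc.PerfectlyMeager
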